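import Pool.Agent.N337.AscEnd

set_option autoImplicit false

/-!
# Pfaffians built from Al-Salam–Carlitz moment sequences, Q1

Definitions (`poch`, `gauss`, `g`, `Pf`, `e`) are in `Pool.Agent.N337.AscDefs`.
-/

namespace Pool.Agent.Results.MP_f5e7e2_co.PfaffianQ1

open Pool.Agent.N337.Asc

/-- For every field `K` of characteristic `0` and all `a, q ∈ K` with `q ≠ 0` not a root of unity
(in particular for indeterminates `a, q`), and every `n ≥ 1`, with `m = ⌊n/2⌋`, `m' = ⌊(n-1)/2⌋`: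
the Pfaffian of `((x_i - x_j) g_{i+j-3})_{1 ≤ i, j ≤ 2n}`, `x_i = q^(i-1)`, is
`a^(n(n-1)) q^(e(n) - 2 m m') ∏_{k=1}^n (q;q)_{2k-1}`. (Below the indices start at `0`.) -/
theorem result (K : Type*) [Field K] [CharZero K] (a q : K) (_hq0 : q ≠ 0)
    (hq : ∀ m : ℕ, 1 ≤ m → q ^ m ≠ 1) (n : ℕ) (hn : 1 ≤ n) :
    Pf n (Matrix.of fun i j : Fin (2 * n) =>
      (q ^ (i : ℕ) - q ^ (j : ℕ)) * g a q ((i : ℕ) + (j : ℕ) - 1)) =
    a ^ (n * (n - 1)) * q ^ (e n - 2 * ((n / 2 : ℕ) : ℤ) * (((n - 1) / 2 : ℕ) : ℤ)) *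
      ∏ k ∈ Finset.Icc 1 n, poch q (2 * k - 1) := by
  rw [main_one hq n hn, prod_shift]

end Pool.Agent.Results.MP_f5e7e2_co.PfaffianQ1
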