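import Pool.Agent.N337.AscEnd

set_option autoImplicit false

/-!
# Pfaffians built from Al-Salam–Carlitz moment sequences, Q2

Definitions (`poch`, `gauss`, `g`, `Pf`, `e`) are in `Pool.Agent.N337.AscDefs`.
-/

namespace Pool.Agent.Results.MP_f5e7e2_co.PfaffianQ2

open Pool.Agent.N337.Asc

/-- For every field `K` of characteristic `0` and all `a, q ∈ K` with `q ≠ 0` not a root of unity
(in particular for indeterminates `a, q`), and every `n ≥ 1`: the Pfaffian of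
`((x_i - x_j) g_{i+j-2})_{1 ≤ i, j ≤ 2n}`, `x_i = q^(i-1)`, is
`a^(n(n-1)) q^(e(n)) ∏_{k=1}^n (q;q)_{2k-1} ∑_{k=0}^n q^⌊(n-2k)^2/2⌋ [n, k]_{q^2} a^k`.
(Below the indices start at `0`.) -/
theorem result (K : Type*) [Field K] [CharZero K] (a q : K) (hq0 : q ≠ 0)
    (hq : ∀ m : ℕ, 1 ≤ m → q ^ m ≠ 1) (n : ℕ) (hn : 1 ≤ n) :
    Pf n (Matrix.of fun i j : Fin (2 * n) =>
      (q ^ (i : ℕ) - q ^ (j : ℕ)) * g a q ((i : ℕ) + (j : ℕ))) =
    a ^ (n * (n - 1)) * q ^ e n * (∏ k ∈ Finset.Icc 1 n, poch q (2 * k - 1)) *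
      ∑ k ∈ Finset.range (n + 1), q ^ (((n : ℤ) - 2 * k) ^ 2 / 2) * gauss (q ^ 2) n k * a ^ k := by
  rw [main_two hq0 hq n hn, prod_shift]

end Pool.Agent.Results.MP_f5e7e2_co.PfaffianQ2
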